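import Pool.Agent.H31.KSp4

open Pool.Agent.H31.TSp Pool.Agent.H31.KSp

universe u v

theorem Pool.Agent.Results.MP_7b06ad_gt.Main.result
    {X : Type u} {V : Type v} [TopologicalSpace X] [TopologicalSpace.MetrizableSpace X]
    [AddCommGroup V] [Module ℝ V] [TopologicalSpace V] [IsTopologicalAddGroup V]
    [ContinuousSMul ℝ V] [T2Space V] (i : X → V) (hi : IsFreeTVS.{u, v, v} i)
    (hk : CompactlyCoherentSpace (sp i 4)) (n : ℕ) : CompactlyCoherentSpace (sp i n) := by
  letI := TopologicalSpace.metrizableSpaceMetric X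
  exact (main hi (by norm_num) hk (kstar_of_metrizable X)).2.2.2 n
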